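import Pool.Agent.Helper5.FRD.Goals
import Pool.Agent.Helper98.FRC.IND

/-!
# Project FRD (MP_79b960_co), packet INDH
-/

set_option autoImplicit false

namespace Pool.Agent.Helper81.FRD.INDH

open Finset Pool.Agent.Helper5.FRC Pool.Agent.Helper5.FRD
open Pool.Agent.Helper98.FRC.IND (inv_sdiff cir_disj even_card decomp enum par)

section

variable {V : Type} [Fintype V] [DecidableEq V]

open Classical in
theorem sum_step {n : Equiv.Perm V} {A D Z : Finset V} (hZA : Z ⊆ A) (hZ : Cir n Z)
    (hZe : Even Z.card) (hZD : Z ≠ D) (f : Finset V → ℕ) :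
    ∑ C ∈ A.powerset.filter (fun C => Cir n C ∧ Even C.card ∧ C ≠ D), f C =
      f Z + ∑ C ∈ (A \ Z).powerset.filter (fun C => Cir n C ∧ Even C.card ∧ C ≠ D), f C := by
  have hnot : Z ∉ (A \ Z).powerset.filter (fun C => Cir n C ∧ Even C.card ∧ C ≠ D) := by
    intro h
    obtain ⟨x, hx⟩ := hZ.1
    have h1 := (mem_powerset.1 (mem_filter.1 h).1) hx
    exact (mem_sdiff.1 h1).2 hx
  rw [← sum_insert hnot]
  refine sum_congr ?_ fun _ _ => rfl
  ext C
  rw [mem_filter, mem_insert, mem_filter, mem_powerset, mem_powerset]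
  constructor
  · rintro ⟨h1, h2, h3⟩
    by_cases h : C = Z
    · exact Or.inl h
    · refine Or.inr ⟨?_, h2, h3⟩
      intro x hx
      exact mem_sdiff.2 ⟨h1 hx, disjoint_left.1 (cir_disj h2 hZ h) hx⟩
  · rintro (rfl | ⟨h1, h2, h3⟩)
    · exact ⟨hZA, hZ, hZe, hZD⟩
    · exact ⟨h1.trans sdiff_subset, h2, h3⟩

omit [Fintype V] in
theorem bl_mono {n : Equiv.Perm V} {A : Finset V} {t : V → V} {l l' : ℕ} (hl : l ≤ l')
    (h : Bl n A t l') : Bl n A t l := fun S hS hi ho => hl.trans (h S hS hi ho)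

end

theorem t (h1 : DisghStmt) (h2 : ExthStmt) (h3 : FourhStmt) (h4 : TwohStmt) (h5 : EvenpStmt) :
    IndhStmt := by
  classical
  intro V _ _ n A D t
  induction hk : A.card using Nat.strong_induction_on generalizing A t with
  | _ k ih =>
    intro hn hA ht hDA hD hDe hB hFc
    by_cases hex : ∃ Z ⊆ A, Cir n Z ∧ Even Z.card ∧ Z ≠ D
    · obtain ⟨Z, hZA, hZ, hZe, hZD⟩ := hex
      rw [sum_step hZA hZ hZe hZD, mul_add, add_comm (2 * ((Z.card - 2) / 4)), ← add_assoc] at hB
      obtain ⟨p, t', hp, hr, hB'⟩ := h1 V n A Z t _ hA ht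
        (Odd.add_even (by decide) (even_two_mul _)) hB hZA hZ hZe
      refine h2 V n A Z t p t' hA ht hZA hZ hZe hp hr ?_
      have hlt : (A \ Z).card < k := by
        rw [← hk, card_sdiff_of_subset hZA]
        have := card_le_card hZA
        have := card_pos.2 hZ.1
        omega
      have hDZ : D ⊆ A \ Z := by
        intro x hx
        exact mem_sdiff.2 ⟨hDA hx, fun h => disjoint_left.1 (cir_disj hZ hD hZD) h hx⟩
      exact ih _ hlt (A \ Z) t' rfl hn (inv_sdiff hA hZ.2.1) hr.1 hDZ hD hDe hB' fun F hF =>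
        hFc F fun C hC => ⟨(hF C hC).1.trans sdiff_subset, (hF C hC).2⟩
    · have hBc : Bl n A t 5 := bl_mono (Nat.le_add_right _ _) hB
      have ho : ∀ C ⊆ A \ D, Cir n C → Odd C.card := by
        intro C hC hCc
        by_contra h
        refine hex ⟨C, hC.trans sdiff_subset, hCc, Nat.not_odd_iff_even.1 h, ?_⟩
        rintro rfl
        obtain ⟨x, hx⟩ := hCc.1
        exact (mem_sdiff.1 (hC hx)).2 hx
      obtain ⟨F, hF, hU⟩ := decomp (inv_sdiff hA hD.2.1)
      have hc : F.card ≤ 4 := hFc F fun C hC =>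
        ⟨((hF C).1 hC).1.trans sdiff_subset, ((hF C).1 hC).2, ho C ((hF C).1 hC).1 ((hF C).1 hC).2⟩
      have hBe : Even (A \ D).card := by
        rw [card_sdiff_of_subset hDA]
        exact (Nat.even_sub (card_le_card hDA)).2 ⟨fun _ => hDe, fun _ => even_card ht⟩
      have he := par hF hU ho hBe
      have hcases : F.card = 0 ∨ F.card = 2 ∨ F.card = 4 := by
        obtain ⟨m, hm⟩ := he
        omega
      have hAD : A = (A \ D) ∪ D := (sdiff_union_of_subset hDA).symm
      rcases hcases with h | h | h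
      · have hF0 : F = ∅ := card_eq_zero.1 h
        rw [hF0, biUnion_empty] at hU
        rw [hU, empty_union] at hAD
        subst hAD
        obtain ⟨p, _, hp, -, hpn⟩ := h5 V n A hD hDe
        refine ⟨p, ∅, empty_subset _, fun v hv => ⟨(hp v hv).1, (hp v hv).2.1, Or.inr (hpn v hv).1⟩,
          fun v hv => absurd hv (notMem_empty v), fun v hv h => absurd h (hp v hv).2.2, ?_⟩
        intro S hS _ _ hSi _ hSo _ _
        exfalso
        have hne : S.Nonempty := by
          rw [nonempty_iff_ne_empty]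
          rintro rfl
          simp at hSo
        rw [hD.2.2 S hS hne hSi] at hSo
        exact (Nat.not_odd_iff_even.2 hDe) hSo
      · obtain ⟨C, c1, c2, c3, c4⟩ := enum hF hU ho 2 h
        refine h4 V n A t C D hn ht hBc c1 c2 c3 hD hDe (fun i => ?_) (by rw [← c4]; exact hAD)
        rw [disjoint_left]
        intro x hx
        have : x ∈ A \ D := by
          rw [c4]
          exact mem_biUnion.2 ⟨i, mem_univ _, hx⟩
        exact (mem_sdiff.1 this).2
      · obtain ⟨C, c1, c2, c3, c4⟩ := enum hF hU ho 4 h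
        refine h3 V n A t C D ⟨hn, ht, hBc, c1, c2, c3, hD, hDe, fun i => ?_,
          by rw [← c4]; exact hAD⟩
        rw [disjoint_left]
        intro x hx
        have : x ∈ A \ D := by
          rw [c4]
          exact mem_biUnion.2 ⟨i, mem_univ _, hx⟩
        exact (mem_sdiff.1 this).2

end Pool.Agent.Helper81.FRD.INDH
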